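import Pool.Agent.Helper32.FJL.Defs
import Pool.Agent.Helper35.FJL.Tails

set_option autoImplicit false

namespace Pool.Agent.FJL

open Finset Pool.Agent.Helper67.JL

/-!
FJL-8: the part of the signal carried by the good blocks.
-/

/-- a sum over a type split according to buckets -/
theorem h58_sum_bkt {I K : Type} [Fintype I] [Fintype K] [DecidableEq K] (bkt : I → K) (f : I → ℝ) :
    ∑ κ, ∑ j, (if bkt j = κ then f j else 0) = ∑ j, f j := by
  rw [Finset.sum_comm]
  refine Finset.sum_congr rfl fun j _ => ?_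
  simp

/-- trace of the final chaos, as a chaos in the bucket signs -/
theorem good_trace {I K : Type} [Fintype I] [DecidableEq I] [Nonempty I] [Fintype K]
    [DecidableEq K] (U : I → I → ℝ) (hcol : ∀ i, ∑ j, U j i ^ 2 = 1)
    (hU2 : ∀ x : I → ℝ, ∑ i, (∑ j, U j i * x j) ^ 2 ≤ ∑ j, x j ^ 2)
    (bkt : I → K) (c : I → ℝ) (γ e : ℝ) (hγ : 0 < γ) (hc0 : ∀ i, 0 ≤ c i) (hc : ∀ i, c i ≤ γ)
    (he : 0 < e) (he1 : e ≤ 1) :
    pr (fun σ : I → Bool => ¬ (
        (1 - e) * ∑ i, c i ≤ ∑ i, c i * ∑ κ, (∑ j, Smat bkt σ κ j * U j i) ^ 2 ∧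
        ∑ i, c i * ∑ κ, (∑ j, Smat bkt σ κ j * U j i) ^ 2 ≤ (1 + e) * ∑ i, c i))
      ≤ 2 * Real.exp (-(e ^ 2 * (∑ i, c i) / (16 * γ))) := by
  classical
  set w : I → I × K → ℝ := fun j q => Real.sqrt (c q.1) * (if bkt j = q.2 then U j q.1 else 0)
    with hw
  have hsq : ∀ i, Real.sqrt (c i) ^ 2 = c i := fun i => Real.sq_sqrt (hc0 i)
  have key : ∀ a : I → ℝ, ∑ q : I × K, (∑ j, a j * w j q) ^ 2 =
      ∑ i, c i * ∑ κ, (∑ j, (if bkt j = κ then a j else 0) * U j i) ^ 2 := by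
    intro a
    rw [Fintype.sum_prod_type]
    refine Finset.sum_congr rfl fun i _ => ?_
    rw [Finset.mul_sum]
    refine Finset.sum_congr rfl fun κ _ => ?_
    have h1 : ∑ j, a j * w j (i, κ) =
        Real.sqrt (c i) * ∑ j, (if bkt j = κ then a j else 0) * U j i := by
      rw [Finset.mul_sum]
      refine Finset.sum_congr rfl fun j _ => ?_
      simp only [hw]
      split_ifs <;> ring
    rw [h1, mul_pow, hsq]
  have hop : ∀ a : I → ℝ, ∑ q : I × K, (∑ j, a j * w j q) ^ 2 ≤ γ * ∑ j, a j ^ 2 := by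
    intro a
    rw [key]
    calc ∑ i, c i * ∑ κ, (∑ j, (if bkt j = κ then a j else 0) * U j i) ^ 2
        ≤ ∑ i, γ * ∑ κ, (∑ j, (if bkt j = κ then a j else 0) * U j i) ^ 2 := by
          refine Finset.sum_le_sum fun i _ => ?_
          exact mul_le_mul_of_nonneg_right (hc i)
            (Finset.sum_nonneg fun κ _ => sq_nonneg _)
      _ = γ * ∑ κ, ∑ i, (∑ j, U j i * (if bkt j = κ then a j else 0)) ^ 2 := by
          rw [← Finset.mul_sum, Finset.sum_comm]
          congr 1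
          refine Finset.sum_congr rfl fun κ _ => ?_
          refine Finset.sum_congr rfl fun i _ => ?_
          congr 1
          refine Finset.sum_congr rfl fun j _ => ?_
          ring
      _ ≤ γ * ∑ κ, ∑ j, (if bkt j = κ then a j else 0) ^ 2 := by
          refine mul_le_mul_of_nonneg_left ?_ hγ.le
          exact Finset.sum_le_sum fun κ _ => hU2 _
      _ = γ * ∑ j, a j ^ 2 := by
          congr 1
          rw [← h58_sum_bkt bkt (fun j => a j ^ 2)]
          refine Finset.sum_congr rfl fun κ _ => ?_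
          refine Finset.sum_congr rfl fun j _ => ?_
          split_ifs <;> simp
  have htr : ∑ j, ∑ q : I × K, w j q ^ 2 = ∑ i, c i := by
    have h1 : ∀ j, ∑ q : I × K, w j q ^ 2 = ∑ i, c i * U j i ^ 2 := by
      intro j
      rw [Fintype.sum_prod_type]
      refine Finset.sum_congr rfl fun i _ => ?_
      have h2 : ∀ κ, w j (i, κ) ^ 2 = if bkt j = κ then c i * U j i ^ 2 else 0 := by
        intro κ
        simp only [hw]
        split_ifs
        · rw [mul_pow, hsq]
        · simp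
      simp only [h2]
      simp
    simp only [h1]
    rw [Finset.sum_comm]
    refine Finset.sum_congr rfl fun i _ => ?_
    rw [← Finset.mul_sum, hcol i, mul_one]
  have h := chaos_dev w γ (∑ i, c i) e hγ he he1 hop htr
  refine le_trans (le_of_eq ?_) h
  congr 1
  funext s
  have h3 : ∑ q : I × K, (∑ j, sg (s j) * w j q) ^ 2 =
      ∑ i, c i * ∑ κ, (∑ j, Smat bkt s κ j * U j i) ^ 2 := by
    rw [key (fun j => sg (s j))]
    rfl
  rw [h3]

/-- bucket sums have squared norm at most the bucket size -/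
theorem h58_smat_op {I K : Type} [Fintype I] [Fintype K] [DecidableEq K]
    (bkt : I → K) (β : ℕ) (hβ : ∀ κ, (univ.filter fun i => bkt i = κ).card = β)
    (σ : I → Bool) (v : I → ℝ) :
    ∑ κ, (∑ l, Smat bkt σ κ l * v l) ^ 2 ≤ β * ∑ l, v l ^ 2 := by
  classical
  rw [← h58_sum_bkt bkt (fun l => v l ^ 2), Finset.mul_sum]
  refine Finset.sum_le_sum fun κ _ => ?_
  have h1 : ∑ l, Smat bkt σ κ l * v l = ∑ l ∈ univ.filter (fun i => bkt i = κ), sg (σ l) * v l := by
    rw [Finset.sum_filter]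
    refine Finset.sum_congr rfl fun l _ => ?_
    unfold Smat
    split_ifs <;> simp
  have h2 : ∑ l, (if bkt l = κ then v l ^ 2 else 0) =
      ∑ l ∈ univ.filter (fun i => bkt i = κ), (sg (σ l) * v l) ^ 2 := by
    rw [Finset.sum_filter]
    refine Finset.sum_congr rfl fun l _ => ?_
    rw [mul_pow, sg_sq, one_mul]
  rw [h1, h2, ← hβ κ]
  exact sq_sum_le_card_mul_sum_sq

/-- final chaos in the signs of the random blocks, for fixed bucket signs -/
theorem good_chaos {I K B : Type} [Fintype I] [DecidableEq I] [Nonempty I] [Fintype K]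
    [DecidableEq K] [DecidableEq B] (U : I → I → ℝ)
    (hU2 : ∀ x : I → ℝ, ∑ i, (∑ j, U i j * x j) ^ 2 ≤ ∑ j, x j ^ 2)
    (blk : I → B) (p : ℕ) (hp : 1 ≤ p)
    (bkt : I → K) (β : ℕ) (hβ1 : 1 ≤ β) (hβ : ∀ κ, (univ.filter fun i => bkt i = κ).card = β)
    (σ : I → Bool) (y : I → ℝ) (γ e : ℝ) (hγ : 0 < γ)
    (hy : ∀ i, (∑ j ∈ univ.filter (fun j => blk i = blk j), y j ^ 2) / p ≤ γ)
    (he : 0 < e) (he1 : e ≤ 1) (τ : ℝ)
    (hτ : τ = ∑ i, (∑ j ∈ univ.filter (fun j => blk i = blk j), y j ^ 2) / p *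
      ∑ κ, (∑ j, Smat bkt σ κ j * U j i) ^ 2) :
    pr (fun ρ : I × I → Bool => ¬ (
        (1 - e) * τ ≤ ∑ κ, (∑ l, Smat bkt σ κ l * ∑ i, U l i * ∑ j, Rmat blk p ρ i j * y j) ^ 2 ∧
        ∑ κ, (∑ l, Smat bkt σ κ l * ∑ i, U l i * ∑ j, Rmat blk p ρ i j * y j) ^ 2
          ≤ (1 + e) * τ))
      ≤ 2 * Real.exp (-(e ^ 2 * τ / (16 * (γ * β)))) := by
  classical
  have hp0 : (0 : ℝ) < p := by exact_mod_cast hp
  have hβ0 : (0 : ℝ) < β := by exact_mod_cast hβ1
  set r : I → I → ℝ := fun i j => if blk i = blk j then y j / Real.sqrt p else 0 with hr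
  set w : I × I → K → ℝ := fun q κ => r q.1 q.2 * ∑ l, Smat bkt σ κ l * U l q.1 with hw
  have hrsq : ∀ i, ∑ j, r i j ^ 2 =
      (∑ j ∈ univ.filter (fun j => blk i = blk j), y j ^ 2) / p := by
    intro i
    rw [Finset.sum_filter, Finset.sum_div]
    refine Finset.sum_congr rfl fun j _ => ?_
    simp only [hr]
    split_ifs
    · rw [div_pow, Real.sq_sqrt hp0.le]
    · simp
  have key : ∀ (a : I × I → ℝ) (κ : K), ∑ q : I × I, a q * w q κ =
      ∑ l, Smat bkt σ κ l * ∑ i, U l i * ∑ j, a (i, j) * r i j := by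
    intro a κ
    rw [Fintype.sum_prod_type]
    have h1 : ∀ i, ∑ j, a (i, j) * w (i, j) κ =
        ∑ l, Smat bkt σ κ l * (U l i * ∑ j, a (i, j) * r i j) := by
      intro i
      have h2 : ∀ j, a (i, j) * w (i, j) κ =
          (a (i, j) * r i j) * ∑ l, Smat bkt σ κ l * U l i := by
        intro j
        simp only [hw]
        ring
      simp only [h2]
      rw [← Finset.sum_mul, Finset.mul_sum]
      refine Finset.sum_congr rfl fun l _ => ?_
      ring
    simp only [h1]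
    rw [Finset.sum_comm]
    refine Finset.sum_congr rfl fun l _ => ?_
    rw [← Finset.mul_sum]
  have hop : ∀ a : I × I → ℝ, ∑ κ, (∑ q, a q * w q κ) ^ 2 ≤ (γ * β) * ∑ q, a q ^ 2 := by
    intro a
    calc ∑ κ, (∑ q, a q * w q κ) ^ 2
        = ∑ κ, (∑ l, Smat bkt σ κ l * (∑ i, U l i * ∑ j, a (i, j) * r i j)) ^ 2 := by
          simp only [key]
      _ ≤ β * ∑ l, (∑ i, U l i * ∑ j, a (i, j) * r i j) ^ 2 := h58_smat_op bkt β hβ σ _
      _ ≤ β * ∑ i, (∑ j, a (i, j) * r i j) ^ 2 := by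
          exact mul_le_mul_of_nonneg_left (hU2 _) hβ0.le
      _ ≤ β * ∑ i, γ * ∑ j, a (i, j) ^ 2 := by
          refine mul_le_mul_of_nonneg_left ?_ hβ0.le
          refine Finset.sum_le_sum fun i _ => ?_
          calc (∑ j, a (i, j) * r i j) ^ 2 ≤ (∑ j, a (i, j) ^ 2) * ∑ j, r i j ^ 2 :=
                Finset.sum_mul_sq_le_sq_mul_sq _ _ _
            _ ≤ (∑ j, a (i, j) ^ 2) * γ := by
                refine mul_le_mul_of_nonneg_left ?_ (Finset.sum_nonneg fun j _ => sq_nonneg _)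
                rw [hrsq]
                exact hy i
            _ = γ * ∑ j, a (i, j) ^ 2 := mul_comm _ _
      _ = (γ * β) * ∑ q, a q ^ 2 := by
          rw [← Finset.mul_sum, Fintype.sum_prod_type]
          ring
  have htr : ∑ q, ∑ κ, w q κ ^ 2 = τ := by
    rw [hτ, Fintype.sum_prod_type]
    refine Finset.sum_congr rfl fun i _ => ?_
    have h1 : ∀ j, ∑ κ, w (i, j) κ ^ 2 =
        r i j ^ 2 * ∑ κ, (∑ l, Smat bkt σ κ l * U l i) ^ 2 := by
      intro j
      rw [Finset.mul_sum]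
      refine Finset.sum_congr rfl fun κ _ => ?_
      simp only [hw]
      ring
    simp only [h1]
    rw [← Finset.sum_mul, hrsq]
  have h := chaos_dev w (γ * β) τ e (mul_pos hγ hβ0) he he1 hop htr
  refine le_trans (le_of_eq ?_) h
  congr 1
  funext ρ
  have h3 : ∑ κ, (∑ q, sg (ρ q) * w q κ) ^ 2 =
      ∑ κ, (∑ l, Smat bkt σ κ l * ∑ i, U l i * ∑ j, Rmat blk p ρ i j * y j) ^ 2 := by
    refine Finset.sum_congr rfl fun κ _ => ?_
    rw [key (fun q => sg (ρ q)) κ]
    congr 1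
    refine Finset.sum_congr rfl fun l _ => ?_
    congr 1
    refine Finset.sum_congr rfl fun i _ => ?_
    congr 1
    refine Finset.sum_congr rfl fun j _ => ?_
    simp only [hr, Rmat]
    split_ifs
    · ring
    · ring
  rw [h3]

end Pool.Agent.FJL
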